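import Mathlib

set_option autoImplicit false

/-!
# Part C2, real line part
-/

namespace Pool.Agent.Thompson.C2

open Set

theorem int_shift (a : ℝ ≃o ℝ) (ha : ∀ t, a (t + 1) = a t + 1) (n : ℤ) (t : ℝ) :
    a (t + n) = a t + n := by
  induction n using Int.induction_on with
  | zero => simp
  | succ n ih =>
    have : t + ((n : ℤ) + 1 : ℤ) = (t + (n : ℤ)) + 1 := by push_cast; ring
    rw [this, ha, ih]; push_cast; ring
  | pred n ih =>
    have h1 := ha (t + ((-(n : ℤ) - 1 : ℤ) : ℝ))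
    have h2 : t + ((-(n : ℤ) - 1 : ℤ) : ℝ) + 1 = t + ((-(n : ℤ) : ℤ) : ℝ) := by push_cast; ring
    rw [h2, ih] at h1
    push_cast at h1 ⊢
    linarith

/-- shift by an integer -/
noncomputable def shf (a : ℝ ≃o ℝ) (j : ℤ) : ℝ ≃o ℝ := a.trans (OrderIso.addRight (-(j : ℝ)))

@[simp] theorem shf_apply (a : ℝ ≃o ℝ) (j : ℤ) (t : ℝ) : shf a j t = a t - j := by
  simp [shf, sub_eq_add_neg]

theorem shf_comm (a : ℝ ≃o ℝ) (ha : ∀ t, a (t + 1) = a t + 1) (j : ℤ) (t : ℝ) :
    shf a j (t + 1) = shf a j t + 1 := by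
  rw [shf_apply, shf_apply, ha]; ring

theorem step_one (a b : ℝ ≃o ℝ) (hb : ∀ t, b (t + 1) = b t + 1)
    (n : ℤ) (hc : 0 < 1 / 2 + (n : ℝ)) (hrel : ∀ t, b (a t) = a (b t) - (1 / 2 + n)) :
    ∃ t : ℝ, ∃ j : ℤ, a t = t + j := by
  by_contra hcon
  push Not at hcon
  have hcont : Continuous fun t => a t - t := a.continuous.sub continuous_id
  set j : ℤ := ⌊a 0 - 0⌋ with hj
  have h0l : (j : ℝ) ≤ a 0 - 0 := Int.floor_le _
  have h0r : a 0 - 0 < j + 1 := Int.lt_floor_add_one _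
  have hlow : ∀ t, (j : ℝ) < a t - t := by
    intro t
    by_contra h
    push Not at h
    obtain ⟨s, hs⟩ := mem_range_of_exists_le_of_exists_ge hcont ⟨t, h⟩ ⟨0, h0l⟩
    exact hcon s j (by linarith)
  have hhigh : ∀ t, a t - t < (j : ℝ) + 1 := by
    intro t
    by_contra h
    push Not at h
    obtain ⟨s, hs⟩ := mem_range_of_exists_le_of_exists_ge hcont ⟨0, h0r.le⟩ ⟨t, h⟩
    exact hcon s (j + 1) (by push_cast; linarith)
  -- conjugate estimates
  have hlow' : ∀ t, (j : ℝ) < a t - t - (1 / 2 + n) := by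
    intro t
    have h1 := hrel (b.symm t)
    rw [b.apply_symm_apply] at h1
    have h2 : b.symm t + j < a (b.symm t) := by have := hlow (b.symm t); linarith
    have h3 := b.strictMono h2
    rw [int_shift b hb, b.apply_symm_apply] at h3
    linarith
  have hn : n = 0 := by
    have h1 := hlow' 0
    have h2 := hhigh 0
    have h3 : (n : ℝ) < 1 := by linarith
    have h4 : (-1 : ℝ) < n := by linarith
    have h5 : n < 1 := by exact_mod_cast h3
    have h6 : -1 < n := by exact_mod_cast h4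
    omega
  subst hn
  have hL : ∀ t, (j : ℝ) + 1 / 2 < a t - t := by
    intro t
    have := hlow' t
    push_cast at this
    linarith
  -- contradiction at t = b 0
  set t := b 0 with ht
  have e1 : b (a (a 0)) = a (a t - 1 / 2) - 1 / 2 := by
    have h1 := hrel (a 0)
    have h2 := hrel 0
    push_cast at h1 h2
    rw [h1, h2]
    norm_num
    rfl
  have e2 : t + ((2 * j + 1 : ℤ) : ℝ) < b (a (a 0)) := by
    have h1 := hL 0
    have h2 := hL (a 0)
    have h3 : 0 + ((2 * j + 1 : ℤ) : ℝ) < a (a 0) := by push_cast; linarith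
    have h4 := b.strictMono h3
    rw [int_shift b hb] at h4
    exact h4
  have e3 := hhigh t
  have e4 := hhigh (a t - 1 / 2)
  rw [e1] at e2
  push_cast at e2
  linarith

/-- output of the real line analysis -/
structure Geo (a b : ℝ ≃o ℝ) (p1 p2 : ℝ) : Prop where
  ha : ∀ t, a (t + 1) = a t + 1
  hb : ∀ t, b (t + 1) = b t + 1
  rel : ∀ t, b (a t) = a (b t) - 1 / 2
  ap1 : a p1 = p1
  ap2 : a p2 = p2
  gt : ∀ t ∈ Ioo p1 p2, t < a t
  lt1 : p1 < b p1
  lt2 : b p2 + 1 / 2 < p2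
  le : p2 ≤ p1 + 1
  lt : p1 < p2

theorem exists_geo (a b : ℝ ≃o ℝ) (ha : ∀ t, a (t + 1) = a t + 1) (hb : ∀ t, b (t + 1) = b t + 1)
    (n : ℤ) (hc : 0 < 1 / 2 + (n : ℝ)) (hrel : ∀ t, b (a t) = a (b t) - (1 / 2 + n)) :
    ∃ j k : ℤ, ∃ p1 p2 : ℝ, Geo (shf a j) (shf b k) p1 p2 := by
  obtain ⟨t0, j, ht0⟩ := step_one a b hb n hc hrel
  set A := shf a j with hA
  have hAc : ∀ t, A (t + 1) = A t + 1 := shf_comm a ha j
  have hAt0 : A t0 = t0 := by rw [hA, shf_apply, ht0]; ring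
  have hrelA : ∀ t, b (A t) = A (b t) - (1 / 2 + n) := by
    intro t
    rw [hA, shf_apply, shf_apply]
    have h1 := int_shift b hb (-j) (a t)
    push_cast at h1
    rw [← sub_eq_add_neg] at h1
    rw [h1, hrel]; ring
  have hAn : ∀ m : ℤ, A (t0 + m) = t0 + m := fun m => by rw [int_shift A hAc, hAt0]
  have hbd : ∀ t, A t < t + 1 := by
    intro t
    have h1 := Int.floor_le (t - t0)
    have h2 := Int.lt_floor_add_one (t - t0)
    have h3 : t < t0 + ((⌊t - t0⌋ + 1 : ℤ) : ℝ) := by push_cast; linarith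
    have h4 := A.strictMono h3
    rw [hAn] at h4
    push_cast at h4
    linarith
  set q0 := b t0 with hq0
  have hAq : A q0 = q0 + (1 / 2 + n) := by
    have h1 := hrelA t0
    rw [hAt0] at h1
    linarith
  have hn : n = 0 := by
    have h1 := hbd q0
    rw [hAq] at h1
    have h3 : (n : ℝ) < 1 := by linarith
    have h4 : (-1 : ℝ) < n := by linarith
    have h5 : n < 1 := by exact_mod_cast h3
    have h6 : -1 < n := by exact_mod_cast h4
    omega
  subst hn
  simp only [Int.cast_zero, add_zero] at hAq hrelA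
  -- (3)
  have L3 : ∀ q t, A q = q + 1 / 2 → A t = t → q ≤ t → q + 1 / 2 < t := by
    intro q t hq ht hqt
    by_contra hcon
    push Not at hcon
    have h1 : A q ≤ A t := A.monotone hqt
    rw [hq, ht] at h1
    have h2 : t = q + 1 / 2 := le_antisymm hcon h1
    have h3 : A t = A q := by rw [ht, hq, h2]
    have h4 := A.injective h3
    linarith
  have hcont : Continuous fun t => A t - t := A.continuous.sub continuous_id
  have hclosed : IsClosed {t : ℝ | A t = t} := isClosed_eq A.continuous continuous_id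
  -- p1
  obtain ⟨p1, ⟨hp1A, hp1q⟩, hp1max⟩ : ∃ p, (A p = p ∧ p ≤ q0) ∧ ∀ t, A t = t → t ≤ q0 → t ≤ p := by
    set m : ℤ := ⌊q0 - t0⌋ with hm
    have h1 : t0 + m ≤ q0 := by have := Int.floor_le (q0 - t0); linarith
    have hcomp : IsCompact ({t : ℝ | A t = t} ∩ Icc (t0 + m) q0) := isCompact_Icc.inter_left hclosed
    obtain ⟨p, hp, hpmax⟩ := hcomp.exists_isGreatest ⟨t0 + m, hAn m, le_refl _, h1⟩
    refine ⟨p, ⟨hp.1, hp.2.2⟩, fun t ht htq => ?_⟩
    by_cases h2 : t0 + m ≤ t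
    · exact hpmax ⟨ht, h2, htq⟩
    · exact (not_le.mp h2).le.trans hp.2.1
  obtain ⟨p2, ⟨hp2A, hp2q⟩, hp2min⟩ : ∃ p, (A p = p ∧ q0 ≤ p) ∧ ∀ t, A t = t → q0 ≤ t → p ≤ t := by
    set m : ℤ := ⌈q0 - t0⌉ with hm
    have h1 : q0 ≤ t0 + m := by have := Int.le_ceil (q0 - t0); linarith
    have hcomp : IsCompact ({t : ℝ | A t = t} ∩ Icc q0 (t0 + m)) := isCompact_Icc.inter_left hclosed
    obtain ⟨p, hp, hpmin⟩ := hcomp.exists_isLeast ⟨t0 + m, hAn m, h1, le_refl _⟩
    refine ⟨p, ⟨hp.1, hp.2.1⟩, fun t ht htq => ?_⟩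
    by_cases h2 : t ≤ t0 + m
    · exact hpmin ⟨ht, htq, h2⟩
    · exact hp.2.2.trans (not_le.mp h2).le
  have hp1lt : p1 < q0 := lt_of_le_of_ne hp1q (fun h => by rw [h] at hp1A; linarith)
  have hp2gt : q0 + 1 / 2 < p2 := L3 q0 p2 hAq hp2A hp2q
  have hp1A' : A (p1 + 1) = p1 + 1 := by rw [hAc, hp1A]
  have hp2le : p2 ≤ p1 + 1 := by
    apply hp2min _ hp1A'
    by_contra hcon
    push Not at hcon
    have := hp1max _ hp1A' hcon.le
    linarith
  have hgt : ∀ t ∈ Ioo p1 p2, t < A t := by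
    intro t ht
    by_contra hcon
    push Not at hcon
    have hpre := isPreconnected_uIcc (a := t) (b := q0)
    have h1 := hpre.intermediate_value (a := t) (b := q0) left_mem_uIcc right_mem_uIcc
      (f := fun s => A s - s) hcont.continuousOn
    have h2 : (0 : ℝ) ∈ Icc (A t - t) (A q0 - q0) := ⟨by linarith, by rw [hAq]; linarith⟩
    obtain ⟨s, hs, hs0⟩ := h1 h2
    have hsA : A s = s := by simp only at hs0; linarith
    rcases le_total s q0 with h3 | h3
    · have h4 := hp1max s hsA h3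
      have h5 : min t q0 ≤ s := hs.1
      have h6 : p1 < min t q0 := lt_min ht.1 hp1lt
      linarith
    · have h4 := hp2min s hsA h3
      have h5 : s ≤ max t q0 := hs.2
      have h6 : max t q0 < p2 := max_lt ht.2 (by linarith)
      linarith
  have hge : ∀ t ∈ Icc p1 p2, t ≤ A t := by
    intro t ht
    rcases eq_or_lt_of_le ht.1 with h1 | h1
    · rw [← h1, hp1A]
    rcases eq_or_lt_of_le ht.2 with h2 | h2
    · rw [h2, hp2A]
    exact (hgt t ⟨h1, h2⟩).le
  set k : ℤ := ⌊b p1 - p1⌋ with hk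
  have hk1 := Int.floor_le (b p1 - p1)
  have hk2 := Int.lt_floor_add_one (b p1 - p1)
  rw [← hk] at hk1 hk2
  set B := shf b k with hB
  have hBc : ∀ t, B (t + 1) = B t + 1 := shf_comm b hb k
  have hrelB : ∀ t, B (A t) = A (B t) - 1 / 2 := by
    intro t
    have hBt : ∀ t, B t = b t - k := fun t => by rw [hB, shf_apply]
    rw [hBt, hBt, hrelA]
    have h1 := int_shift A hAc (-k) (b t)
    push_cast at h1
    rw [← sub_eq_add_neg] at h1
    rw [h1]; ring
  have hB1 : B p1 = b p1 - k := by rw [hB, shf_apply]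
  have hAB : ∀ p, A p = p → A (B p) = B p + 1 / 2 := by
    intro p hp
    have h1 := hrelB p
    rw [hp] at h1
    linarith
  have hAB1 := hAB p1 hp1A
  have hAB2 := hAB p2 hp2A
  have hlt12 : p1 < p2 := by linarith
  have hBlt : B p1 < B p2 := B.strictMono hlt12
  have c1 : p1 < B p1 := by
    rcases eq_or_lt_of_le (show p1 ≤ B p1 by rw [hB1]; linarith) with h1 | h1
    · rw [← h1, hp1A] at hAB1; linarith
    · exact h1
  have c1' : B p1 < p1 + 1 := by rw [hB1]; linarith
  have c2 : B p1 < p2 := by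
    by_contra hcon
    push Not at hcon
    have h1 := L3 (B p1) (p1 + 1) hAB1 hp1A' c1'.le
    linarith
  have c3 : B p2 < p2 := by
    by_contra hcon
    push Not at hcon
    -- p2 = B r with r in [p1,p2]
    have hr : B (B.symm p2) = p2 := B.apply_symm_apply p2
    have hr1 : p1 ≤ B.symm p2 := by
      rw [← B.le_iff_le, hr]; exact c2.le
    have hr2 : B.symm p2 ≤ p2 := by
      rw [← B.le_iff_le, hr]; exact hcon
    have h1 := hrelB (B.symm p2)
    rw [hr, hp2A] at h1
    have h2 := B.monotone (hge _ ⟨hr1, hr2⟩)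
    rw [hr] at h2
    linarith
  have c4 : B p2 + 1 / 2 < p2 := L3 (B p2) p2 hAB2 hp2A c3.le
  exact ⟨j, k, p1, p2, hAc, hBc, hrelB, hp1A, hp2A, hgt, c1, c4, hp2le, hlt12⟩

end Pool.Agent.Thompson.C2
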