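import Pool.Agent.Thompson.C2.Abs
import Pool.Agent.Thompson.C2.Real

set_option autoImplicit false

/-!
# Part C2, from the line to the circle
-/

namespace Pool.Agent.Thompson.C2

open Set

/-- `π : ℝ → α` is a model of the projection to the circle -/
structure Proj {α : Type*} (π : ℝ → α) : Prop where
  iff : ∀ s t : ℝ, π s = π t ↔ ∃ n : ℤ, s = t + n
  surj : Function.Surjective π

variable {α : Type*} {π : ℝ → α}

theorem Proj.eq_of_lt (h : Proj π) {s t : ℝ} (hst : π s = π t) (h1 : s < t + 1) (h2 : t < s + 1) : s = t := by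
  obtain ⟨n, hn⟩ := (h.iff s t).1 hst
  have h3 : (n : ℝ) < 1 := by linarith
  have h4 : (-1 : ℝ) < n := by linarith
  have h5 : n < 1 := by exact_mod_cast h3
  have h6 : -1 < n := by exact_mod_cast h4
  have h7 : n = 0 := by omega
  rw [hn, h7]; simp

theorem Proj.add_int (h : Proj π) (t : ℝ) (n : ℤ) : π (t + n) = π t := (h.iff _ _).2 ⟨n, rfl⟩

theorem Proj.add_one (h : Proj π) (t : ℝ) : π (t + 1) = π t := by
  have := h.add_int t 1
  simpa using this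

theorem Proj.half (h : Proj π) (t : ℝ) : π (t + 1 / 2) = π (t - 1 / 2) := by
  rw [← h.add_one (t - 1 / 2)]; congr 1; ring

theorem Proj.rep (h : Proj π) (z : α) (w : ℝ) : ∃ t, w ≤ t ∧ t < w + 1 ∧ π t = z := by
  obtain ⟨s, rfl⟩ := h.surj z
  refine ⟨s - ⌊s - w⌋, ?_, ?_, ?_⟩
  · have := Int.floor_le (s - w); linarith
  · have := Int.lt_floor_add_one (s - w); linarith
  · have := h.add_int s (-⌊s - w⌋)
    push_cast at this
    rw [sub_eq_add_neg, this]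

theorem iter_mem {f : ℝ → ℝ} {S S' : Set ℝ} (h1 : ∀ s ∈ S, f s ∈ S') (h2 : S' ⊆ S) {n : ℕ} (hn : n ≠ 0)
    {s : ℝ} (hs : s ∈ S) : f^[n] s ∈ S' := by
  obtain ⟨m, rfl⟩ := Nat.exists_eq_succ_of_ne_zero hn
  clear hn
  induction m with
  | zero => simpa using h1 s hs
  | succ m ih =>
    rw [Function.iterate_succ_apply']
    exact h1 _ (h2 ih)

theorem pow_lift {x : Equiv.Perm α} {a : ℝ ≃o ℝ} (hx : ∀ t, x (π t) = π (a t)) (n : ℕ) (t : ℝ) :
    (x ^ (n : ℤ)) (π t) = π (a^[n] t) := by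
  induction n with
  | zero => simp
  | succ n ih =>
    rw [Function.iterate_succ_apply', ← hx, ← ih]
    push_cast
    rw [add_comm, zpow_add, zpow_one]
    rfl

theorem symm_lift {x : Equiv.Perm α} {a : ℝ ≃o ℝ} (hx : ∀ t, x (π t) = π (a t)) (t : ℝ) :
    x⁻¹ (π t) = π (a.symm t) := by
  have h1 := hx (a.symm t)
  rw [a.apply_symm_apply] at h1
  rw [← h1, ppia]

theorem pow_lift_neg {x : Equiv.Perm α} {a : ℝ ≃o ℝ} (hx : ∀ t, x (π t) = π (a t)) (n : ℕ) (t : ℝ) :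
    (x ^ (-(n : ℤ))) (π t) = π (a.symm^[n] t) := by
  rw [zpow_neg, ← inv_zpow]
  exact pow_lift (symm_lift hx) n t

/-- a general way to get ping pong data -/
theorem pp_of_lift (h : Proj π) {x R : Equiv.Perm α} {a : ℝ ≃o ℝ} (hx : ∀ t, x (π t) = π (a t))
    (hR : ∀ t, R (π t) = π (t + 1 / 2)) {u1 u2 v1 v2 w : ℝ}
    -- I = [u1,u2], X1 = (w+1/2, w+1), X2 = (w, w+1/2)
    (hu1 : a u1 = u1) (hu2 : a u2 = u2) (h1 : w + 1 / 2 < u1) (h2 : u2 < w + 1)
    -- positive powers: (v1, v2)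
    (hpos : ∀ s ∈ Ioo w v2, a s ∈ Ioo (w + 1 / 2) v2) (hv2 : w + 1 / 2 ≤ v2) (hv2' : v2 ≤ w + 1)
    (hneg : ∀ s ∈ Ioo v1 (w + 1 / 2), a.symm s ∈ Ioo v1 w) (hv1 : v1 ≤ w) (hv1' : w - 1 / 2 ≤ v1) :
    PP x R (π '' Icc u1 u2) (π '' Ioo (w + 1 / 2) (w + 1)) (π '' Ioo w (w + 1 / 2)) where
  disj := by
    rintro _ ⟨t, ht, rfl⟩ ⟨s, hs, hst⟩
    have := h.eq_of_lt hst (by linarith [hs.2, ht.1]) (by linarith [hs.1, ht.2])
    have h3 := hs.2
    have h4 := ht.1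
    linarith
  hR := by
    rintro _ ⟨t, ht, rfl⟩
    rw [hR, h.half]
    exact ⟨t - 1 / 2, ⟨by linarith [ht.1], by linarith [ht.2]⟩, rfl⟩
  hx := by
    rintro n hn _ ⟨t, ht, rfl⟩
    obtain ⟨m, rfl | rfl⟩ := n.eq_nat_or_neg
    · rw [pow_lift hx]
      have hm : m ≠ 0 := by rintro rfl; simp at hn
      have h3 := iter_mem hpos (fun s hs => ⟨by linarith [hs.1], hs.2⟩) hm
        (show t ∈ Ioo w v2 from ⟨ht.1, by linarith [ht.2]⟩)
      exact ⟨_, ⟨h3.1, by linarith [h3.2]⟩, rfl⟩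
    · rw [pow_lift_neg hx]
      have hm : m ≠ 0 := by rintro rfl; simp at hn
      have h3 := iter_mem hneg (fun s hs => ⟨hs.1, by linarith [hs.2]⟩) hm
        (show t ∈ Ioo v1 (w + 1 / 2) from ⟨by linarith [ht.1], ht.2⟩)
      exact ⟨a.symm^[m] t + 1, ⟨by linarith [h3.1], by linarith [h3.2]⟩, h.add_one _⟩
  hI := by
    rintro _ ⟨t, ht, rfl⟩
    exact ⟨t, ⟨by linarith [ht.1], by linarith [ht.2]⟩, rfl⟩
  hxI := by
    have hp : ∀ s ∈ Icc u1 u2, a s ∈ Icc u1 u2 := fun s hs =>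
      ⟨by have := a.monotone hs.1; rwa [hu1] at this, by have := a.monotone hs.2; rwa [hu2] at this⟩
    have hu1' : a.symm u1 = u1 := by rw [← hu1, a.symm_apply_apply, hu1]
    have hu2' : a.symm u2 = u2 := by rw [← hu2, a.symm_apply_apply, hu2]
    have hn : ∀ s ∈ Icc u1 u2, a.symm s ∈ Icc u1 u2 := fun s hs =>
      ⟨by have := a.symm.monotone hs.1; rwa [hu1'] at this,
        by have := a.symm.monotone hs.2; rwa [hu2'] at this⟩
    rintro n _ ⟨t, ht, rfl⟩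
    obtain ⟨m, rfl | rfl⟩ := n.eq_nat_or_neg
    · rw [pow_lift hx]
      rcases Nat.eq_zero_or_pos m with rfl | hm
      · exact ⟨t, ht, rfl⟩
      · exact ⟨_, iter_mem hp (fun s hs => hs) hm.ne' ht, rfl⟩
    · rw [pow_lift_neg hx]
      rcases Nat.eq_zero_or_pos m with rfl | hm
      · exact ⟨t, ht, rfl⟩
      · exact ⟨_, iter_mem hn (fun s hs => hs) hm.ne' ht, rfl⟩

theorem PP.of_inv {x R : Equiv.Perm α} {I X1 X2 : Set α} (h : PP x⁻¹ R I X1 X2) : PP x R I X1 X2 where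
  disj := h.disj
  hR := h.hR
  hx := by
    intro n hn z hz
    have h1 := h.hx (-n) (by omega) z hz
    rwa [inv_zpow, zpow_neg, inv_inv] at h1
  hI := h.hI
  hxI := by
    intro n z hz
    have h1 := h.hxI (-n) z hz
    rwa [inv_zpow, zpow_neg, inv_inv] at h1

theorem data_of_geo (h : Proj π) {x y R : Equiv.Perm α} {a b : ℝ ≃o ℝ} {p1 p2 : ℝ} (g : Geo a b p1 p2)
    (hx : ∀ t, x (π t) = π (a t)) (hy : ∀ t, y (π t) = π (b t)) (hR : ∀ t, R (π t) = π (t + 1 / 2)) :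
    ∃ I J X1 X2 Z1 Z2 : Set α, Data x y R I J X1 X2 Z1 Z2 (π p1) := by
  obtain ⟨ha, hb, rel, ap1, ap2, gt, lt1, lt2, le, lt⟩ := g
  set j1 := b p1 with hj1
  set j2 := b p2 with hj2
  have aj1 : a j1 = j1 + 1 / 2 := by have := rel p1; rw [ap1] at this; linarith
  have aj2 : a j2 = j2 + 1 / 2 := by have := rel p2; rw [ap2] at this; linarith
  have ap1' : a (p1 + 1) = p1 + 1 := by rw [ha, ap1]
  have aj1' : a (j1 + 1) = j1 + 1 + 1 / 2 := by rw [ha, aj1]; ring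
  have bp1' : b (p1 + 1) = j1 + 1 := by rw [hb]
  have hj12 : j1 < j2 := b.strictMono lt
  have hsymm : ∀ {c : ℝ ≃o ℝ} {u v u' v' : ℝ}, c u = u' → c v = v' → ∀ s ∈ Ioo u' v', c.symm s ∈ Ioo u v := by
    intro c u v u' v' hu hv s hs
    constructor
    · rw [← c.lt_iff_lt, c.apply_symm_apply, hu]; exact hs.1
    · rw [← c.lt_iff_lt, c.apply_symm_apply, hv]; exact hs.2
  have hmap : ∀ {c : ℝ ≃o ℝ} {u v u' v' : ℝ}, c u = u' → c v = v' → ∀ s ∈ Ioo u v, c s ∈ Ioo u' v' := by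
    intro c u v u' v' hu hv s hs
    exact ⟨by rw [← hu]; exact c.strictMono hs.1, by rw [← hv]; exact c.strictMono hs.2⟩
  -- a' = a - 1/2
  set a' : ℝ ≃o ℝ := a.trans (OrderIso.addRight (-(1 / 2 : ℝ))) with ha'
  have a'_apply : ∀ t, a' t = a t - 1 / 2 := fun t => by simp [ha', sub_eq_add_neg]
  have hRx : ∀ t, (R * x) (π t) = π (a' t) := by
    intro t
    rw [Equiv.Perm.mul_apply, hx, hR, h.half, a'_apply]
  have hRx' : ∀ t, (R * x)⁻¹ (π t) = π (a'.symm t) := symm_lift hRx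
  have a'j1 : a' (j1 + 1) = j1 + 1 := by rw [a'_apply, aj1']; ring
  have a'j2 : a' j2 = j2 := by rw [a'_apply, aj2]; ring
  have a'j2' : a' (j2 + 1) = j2 + 1 := by rw [a'_apply, ha, aj2]; ring
  have a'p1' : a' (p1 + 1) = p1 + 1 / 2 := by rw [a'_apply, ap1']; ring
  have hsfix : ∀ u, a' u = u → a'.symm u = u := fun u hu => by
    rw [← hu, a'.symm_apply_apply, hu]
  refine ⟨π '' Icc p2 (p1 + 1), π '' Icc (j1 + 1) (j2 + 1), π '' Ioo (j1 + 1 / 2) (j1 + 1),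
    π '' Ioo j1 (j1 + 1 / 2), π '' Ioo (p1 + 1 / 2 + 1 / 2) (p1 + 1 / 2 + 1),
    π '' Ioo (p1 + 1 / 2) (p1 + 1 / 2 + 1 / 2), ?_, ?_, ?_, ?_, ?_, ?_, ?_, ?_, ?_, ?_, ?_⟩
  · -- R * R = 1
    ext z
    obtain ⟨t, rfl⟩ := h.surj z
    rw [Equiv.Perm.mul_apply, hR, hR, Equiv.Perm.one_apply]
    have : t + 1 / 2 + 1 / 2 = t + 1 := by ring
    rw [this, h.add_one]
  · ext z
    obtain ⟨t, rfl⟩ := h.surj z
    rw [Equiv.Perm.mul_apply, Equiv.Perm.mul_apply, Equiv.Perm.mul_apply, hy, hx, hR, hx, hy, rel, h.half]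
  · exact pp_of_lift h hx hR (v1 := p1) (v2 := p2) ap2 ap1' (by linarith) (by linarith)
      (hmap aj1 ap2) (by linarith) (by linarith) (hsymm ap1 aj1) (by linarith) (by linarith)
  · refine PP.of_inv (pp_of_lift h hRx' hR (v1 := j2) (v2 := j1 + 1) (hsfix _ a'j1) (hsfix _ a'j2') ?_ ?_
      ?_ ?_ ?_ ?_ ?_ ?_)
    · linarith
    · linarith
    · have h1 : p1 + 1 / 2 + 1 / 2 = p1 + 1 := by ring
      rw [h1]
      exact hsymm a'p1' a'j1
    · linarith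
    · linarith
    · have h1 : p1 + 1 / 2 + 1 / 2 = p1 + 1 := by ring
      rw [h1]
      intro s hs
      have h2 := hmap a'j2 a'p1' s hs
      simpa using h2
    · linarith
    · linarith
  · rintro _ ⟨t, ht, rfl⟩ ⟨s, hs, hst⟩
    have h2 := h.eq_of_lt hst (by linarith [hs.2, ht.1]) (by linarith [hs.1, ht.2])
    linarith [hs.2, ht.1]
  · rintro _ ⟨t, ht, rfl⟩ ⟨s, hs, hst⟩
    have h2 := h.eq_of_lt hst (by linarith [hs.2, ht.1]) (by linarith [hs.1, ht.2])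
    linarith [hs.1, ht.2]
  · intro z hz
    obtain ⟨t, ht1, ht2, rfl⟩ := h.rep z p1
    rw [hy]
    have h3 : t < p2 := by
      by_contra hcon
      push Not at hcon
      exact hz ⟨t, ⟨hcon, by linarith⟩, rfl⟩
    refine ⟨b t + 1, ⟨?_, ?_⟩, h.add_one _⟩
    · have := b.monotone ht1
      linarith
    · have := b.monotone h3.le
      linarith
  · intro z hz
    obtain ⟨t, ht1, ht2, rfl⟩ := h.rep z j1
    rw [symm_lift hy]
    have h3 : j2 < t := by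
      by_contra hcon
      push Not at hcon
      exact hz ⟨t + 1, ⟨by linarith, by linarith⟩, h.add_one _⟩
    refine ⟨b.symm t, ⟨?_, ?_⟩, rfl⟩
    · rw [← b.le_iff_le, b.apply_symm_apply]
      exact h3.le
    · rw [← b.le_iff_le, b.apply_symm_apply, bp1']
      exact ht2.le
  · exact ⟨p1 + 1, ⟨le, le_refl _⟩, h.add_one _⟩
  · rw [hx, ap1]
  · rw [hy]
    exact ⟨j1 + 1, ⟨le_refl _, by linarith⟩, h.add_one _⟩

end Pool.Agent.Thompson.C2
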