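import Pool.Agent.Thompson.Base

set_option autoImplicit false

/-!
# Part C2, the cocycle
-/

namespace Pool.Agent.Thompson.C2

open Set Filter Topology

/-- right germs, in interval form -/
def RGI (σ : ℝ → ℝ) (q : ℝ) (k : ℤ) (c : ℝ) : Prop :=
  ∃ δ : ℝ, 0 < δ ∧ ∀ y ∈ Ico q (q + δ), σ y = (2 : ℝ) ^ k * y + c

theorem RGI.self {σ : ℝ → ℝ} {q : ℝ} {k : ℤ} {c : ℝ} (h : RGI σ q k c) : σ q = (2 : ℝ) ^ k * q + c := by
  obtain ⟨δ, hδ, h⟩ := h
  exact h q ⟨le_rfl, by linarith⟩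

theorem RGI.unique {σ : ℝ → ℝ} {q : ℝ} {k k' : ℤ} {c c' : ℝ} (h : RGI σ q k c) (h' : RGI σ q k' c') :
    k = k' := by
  obtain ⟨δ, hδ, h⟩ := h
  obtain ⟨δ', hδ', h'⟩ := h'
  set ε := min δ δ' / 2 with hε
  have hm : 0 < min δ δ' := lt_min hδ hδ'
  have h1 : 0 < ε := by rw [hε]; linarith
  have h2 : ε < δ := by have := min_le_left δ δ'; rw [hε]; linarith
  have h3 : ε < δ' := by have := min_le_right δ δ'; rw [hε]; linarith
  have e1 := h q ⟨le_rfl, by linarith⟩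
  have e2 := h' q ⟨le_rfl, by linarith⟩
  have e3 := h (q + ε) ⟨by linarith, by linarith⟩
  have e4 := h' (q + ε) ⟨by linarith, by linarith⟩
  have e5 : ((2 : ℝ) ^ k - (2 : ℝ) ^ k') * ε = 0 := by
    have : (2 : ℝ) ^ k * ε = (2 : ℝ) ^ k' * ε := by linarith
    linarith
  have e6 : (2 : ℝ) ^ k = (2 : ℝ) ^ k' := by
    rcases mul_eq_zero.1 e5 with h6 | h6
    · linarith
    · exact absurd h6 h1.ne'
  exact zpow_right_injective₀ (by norm_num) (by norm_num) e6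

theorem uform_rgi {σ : Equiv.Perm ℝ} (h : UForm σ) (q : ℝ) : ∃ k : ℤ, ∃ c : ℝ, Dy c ∧ RGI σ q k c := by
  rw [uform_iff] at h
  obtain ⟨h0, N, hN⟩ := h
  obtain ⟨u, hu, h1, h2⟩ := exists_cell N q
  obtain ⟨k, c, hc, hk⟩ := hN u hu
  exact ⟨k, c, hc, u + 1 / 2 ^ N - q, by linarith, fun y hy => hk y ⟨h1.trans hy.1, by linarith [hy.2]⟩⟩

open Classical in
/-- exponent of the right slope -/
noncomputable def slope (σ : ℝ → ℝ) (q : ℝ) : ℤ :=
  if h : ∃ k : ℤ, ∃ c : ℝ, RGI σ q k c then h.choose else 0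

theorem RGI.slope_eq {σ : ℝ → ℝ} {q : ℝ} {k : ℤ} {c : ℝ} (h : RGI σ q k c) : slope σ q = k := by
  have hex : ∃ k : ℤ, ∃ c : ℝ, RGI σ q k c := ⟨k, c, h⟩
  rw [slope, dif_pos hex]
  obtain ⟨c', hc'⟩ := hex.choose_spec
  exact hc'.unique h

theorem RGI.comp {σ τ : ℝ → ℝ} {q : ℝ} {k k' : ℤ} {c c' : ℝ} (h : RGI τ q k c) (h' : RGI σ (τ q) k' c') :
    RGI (σ ∘ τ) q (k' + k) ((2 : ℝ) ^ k' * c + c') := by
  have e := h.self
  obtain ⟨δ, hδ, h⟩ := h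
  obtain ⟨δ', hδ', h'⟩ := h'
  have hp := two_zpow_pos k
  refine ⟨min δ (δ' / 2 ^ k), lt_min hδ (by positivity), fun y hy => ?_⟩
  have h1 : y < q + δ := hy.2.trans_le (by gcongr; exact min_le_left _ _)
  have h2 : y < q + δ' / 2 ^ k := hy.2.trans_le (by gcongr; exact min_le_right _ _)
  rw [Function.comp_apply, h' (τ y), h y ⟨hy.1, h1⟩, zpow_add₀ (by norm_num)]
  · ring
  · rw [h y ⟨hy.1, h1⟩, e]
    refine ⟨?_, ?_⟩
    · gcongr
      exact hy.1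
    · have h3 : y - q < δ' / 2 ^ k := by linarith
      rw [lt_div_iff₀ hp] at h3
      linarith

theorem slope_mul {σ τ : Equiv.Perm ℝ} (hσ : UForm σ) (hτ : UForm τ) (q : ℝ) :
    slope (⇑(σ * τ)) q = slope σ (τ q) + slope τ q := by
  obtain ⟨k, c, hc, h⟩ := uform_rgi hτ q
  obtain ⟨k', c', hc', h'⟩ := uform_rgi hσ (τ q)
  rw [h.slope_eq, h'.slope_eq]
  exact (h.comp h').slope_eq

/-- `κ N q` is the least `e ≥ 1` with `2^e N q` an integer -/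
noncomputable def kap (N : ℕ) (q : ℝ) : ℕ := sInf {e : ℕ | 1 ≤ e ∧ OnG e (N * q)}

theorem kap_spec {N : ℕ} {q : ℝ} (h : Dy (N * q)) : 1 ≤ kap N q ∧ OnG (kap N q) (N * q) := by
  have hne : {e : ℕ | 1 ≤ e ∧ OnG e (N * q)}.Nonempty := by
    obtain ⟨e, he⟩ := h.onG
    exact ⟨e + 1, by simp, he.mono (by omega)⟩
  exact Nat.sInf_mem hne

theorem kap_le {N : ℕ} {q : ℝ} {e : ℕ} (h1 : 1 ≤ e) (h : OnG e (N * q)) : kap N q ≤ e :=
  Nat.sInf_le ⟨h1, h⟩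

theorem kap_eq_succ {N : ℕ} {q : ℝ} {e : ℕ} (h1 : 1 ≤ e) (h : OnG (e + 1) (N * q)) (h' : ¬ OnG e (N * q)) :
    kap N q = e + 1 := by
  apply le_antisymm (kap_le (by omega) h)
  by_contra hcon
  push Not at hcon
  have h2 := (kap_spec h.dy).2
  exact h' (h2.mono (by omega))

theorem OnG.neg {e : ℕ} {x : ℝ} (hx : OnG e x) : OnG e (-x) := by
  obtain ⟨m, rfl⟩ := hx
  exact ⟨-m, by push_cast; ring⟩

theorem OnG.add {e : ℕ} {x y : ℝ} (hx : OnG e x) (hy : OnG e y) : OnG e (x + y) := by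
  obtain ⟨m, rfl⟩ := hx
  obtain ⟨m', rfl⟩ := hy
  exact ⟨m + m', by push_cast; ring⟩

theorem OnG.add_iff {e : ℕ} {x y : ℝ} (hy : OnG e y) : OnG e (x + y) ↔ OnG e x := by
  constructor
  · intro h
    have := OnG.add h (OnG.neg hy)
    simpa using this
  · intro h
    exact OnG.add h hy

theorem OnG.nat_mul {e : ℕ} {x : ℝ} (N : ℕ) (hx : OnG e x) : OnG e (N * x) := by
  obtain ⟨m, rfl⟩ := hx
  exact ⟨N * m, by push_cast; ring⟩

theorem OnG.zpow_mul_iff {e e' : ℕ} {k : ℤ} (hk : (e' : ℤ) = e - k) {x : ℝ} :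
    OnG e' ((2 : ℝ) ^ k * x) ↔ OnG e x := by
  have hp : (0 : ℝ) < 2 ^ e := by positivity
  have hp' : (0 : ℝ) < 2 ^ e' := by positivity
  have hkk : (2 : ℝ) ^ k * 2 ^ e' = 2 ^ e := by
    rw [← zpow_natCast (2 : ℝ) e', ← zpow_natCast (2 : ℝ) e, ← zpow_add₀ (by norm_num)]
    congr 1
    omega
  have hkp := two_zpow_pos k
  constructor
  · rintro ⟨m, hm⟩
    refine ⟨m, ?_⟩
    rw [eq_div_iff hp'.ne'] at hm
    rw [eq_div_iff hp.ne', ← hm, ← hkk]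
    ring
  · rintro ⟨m, rfl⟩
    refine ⟨m, ?_⟩
    rw [eq_div_iff hp'.ne', ← hkk]
    field_simp

/-- the affine rule for `κ` on points with large denominators -/
theorem kap_affine {N : ℕ} {k : ℤ} {c : ℝ} {E : ℕ} (hc : OnG E c) {q : ℝ} (hq : Dy (N * q))
    (hbig : E + k.natAbs + 3 ≤ kap N q) :
    (kap N ((2 : ℝ) ^ k * q + c) : ℤ) = kap N q - k := by
  obtain ⟨h1, h2⟩ := kap_spec hq
  -- e = kap - 1
  obtain ⟨e, he⟩ : ∃ e, kap N q = e + 1 := ⟨kap N q - 1, by omega⟩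
  have hkabs : |k| = k.natAbs := Int.abs_eq_natAbs k
  have hk1 : k ≤ k.natAbs := by rw [← hkabs]; exact le_abs_self k
  have hk2 : -k ≤ k.natAbs := by rw [← hkabs]; exact neg_le_abs k
  obtain ⟨f, hf⟩ : ∃ f : ℕ, (f : ℤ) = e - k := ⟨((e : ℤ) - k).toNat, Int.toNat_of_nonneg (by omega)⟩
  have hnot : ¬ OnG e (N * q) := by
    intro h
    have := kap_le (by omega) h
    omega
  rw [he] at h2
  have hNc : OnG f (N * c) := OnG.nat_mul N (hc.mono (by omega))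
  have hNc' : OnG (f + 1) (N * c) := hNc.mono (by omega)
  have eq1 : (N : ℝ) * ((2 : ℝ) ^ k * q + c) = (2 : ℝ) ^ k * (N * q) + N * c := by ring
  have h3 : kap N ((2 : ℝ) ^ k * q + c) = f + 1 := by
    apply kap_eq_succ (by omega)
    · rw [eq1, OnG.add_iff hNc', OnG.zpow_mul_iff (e := e + 1) (by push_cast; omega)]
      exact h2
    · rw [eq1, OnG.add_iff hNc, OnG.zpow_mul_iff (e := e) hf]
      exact hnot
  rw [h3, he]
  push_cast
  omega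

theorem finite_kap (N : ℕ) (hN : 0 < N) (B : ℕ) : {q : ℝ | q ∈ Ico (0 : ℝ) 1 ∧ Dy (N * q) ∧ kap N q ≤ B}.Finite := by
  have hp : (0 : ℝ) < 2 ^ B := by positivity
  have hN' : (0 : ℝ) < N := by exact_mod_cast hN
  refine (((Set.finite_Icc (0 : ℤ) (N * 2 ^ B)).image fun m : ℤ => (m : ℝ) / 2 ^ B / N)).subset ?_
  rintro q ⟨hq, hd, hk⟩
  obtain ⟨m, hm⟩ := (kap_spec hd).2.mono hk
  have hm' : (m : ℝ) = N * q * 2 ^ B := by rw [hm]; field_simp
  refine ⟨m, ⟨?_, ?_⟩, ?_⟩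
  · have h1 : (0 : ℝ) ≤ m := by
      rw [hm']
      have := hq.1
      positivity
    exact_mod_cast h1
  · have h1 : (m : ℝ) ≤ N * 2 ^ B := by
      rw [hm']
      have h2 : (N : ℝ) * q ≤ N * 1 := mul_le_mul_of_nonneg_left hq.2.le hN'.le
      nlinarith
    exact_mod_cast h1
  · simp only
    rw [hm']
    field_simp

/-- the cocycle -/
noncomputable def coc (N : ℕ) (σ : ℝ → ℝ) (q : ℝ) : ℤ := kap N (σ q) - kap N q + slope σ q

theorem coc_mul {N : ℕ} {σ τ : Equiv.Perm ℝ} (hσ : UForm σ) (hτ : UForm τ) (q : ℝ) :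
    coc N (⇑(σ * τ)) q = coc N σ (τ q) + coc N τ q := by
  rw [coc, coc, coc, slope_mul hσ hτ, Equiv.Perm.mul_apply]
  ring

theorem coc_finite {N : ℕ} (hN : 0 < N) {σ : Equiv.Perm ℝ} (hσ : UForm σ) :
    {q : ℝ | q ∈ Ico (0 : ℝ) 1 ∧ Dy (N * q) ∧ coc N σ q ≠ 0}.Finite := by
  obtain ⟨h0, M, hM⟩ := hσ
  choose! k c hc hk using hM
  have hE : ∀ j, j < 2 ^ M → ∃ E, OnG E (c j) := fun j hj => (hc j hj).onG
  choose! E hE using hE
  refine (Set.Finite.biUnion (Set.finite_lt_nat (2 ^ M)) (fun j _ => finite_kap N hN (E j + (k j).natAbs + 2))).subset ?_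
  rintro q ⟨hq, hd, hne⟩
  -- find the cell
  have hp : (0 : ℝ) < 2 ^ M := by positivity
  have hfl : 0 ≤ ⌊q * 2 ^ M⌋ := Int.floor_nonneg.2 (by have := hq.1; positivity)
  obtain ⟨j, hj⟩ := Int.eq_ofNat_of_zero_le hfl
  have h1 : (j : ℝ) ≤ q * 2 ^ M := by
    have := Int.floor_le (q * 2 ^ M)
    rw [hj] at this
    simpa using this
  have h2 : q * 2 ^ M < j + 1 := by
    have := Int.lt_floor_add_one (q * 2 ^ M)
    rw [hj] at this
    simpa using this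
  have hjlt : j < 2 ^ M := by
    have : (j : ℝ) < 2 ^ M := by
      have := hq.2
      nlinarith
    exact_mod_cast this
  have hcell : q ∈ Ico ((j : ℝ) / 2 ^ M) (((j : ℝ) + 1) / 2 ^ M) :=
    ⟨by rw [div_le_iff₀ hp]; exact h1, by rw [lt_div_iff₀ hp]; exact h2⟩
  simp only [Set.mem_iUnion, Set.mem_ofPred_eq, exists_prop]
  refine ⟨j, hjlt, hq, hd, ?_⟩
  by_contra hcon
  push Not at hcon
  apply hne
  have hslope : RGI σ q (k j) (c j) :=
    ⟨((j : ℝ) + 1) / 2 ^ M - q, by linarith [hcell.2], fun y hy => hk j hjlt y ⟨hcell.1.trans hy.1, by linarith [hy.2]⟩⟩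
  rw [coc, hslope.slope_eq, hk j hjlt q hcell, kap_affine (hE j hjlt) hd (by omega)]
  ring

/-- the rotation has trivial cocycle -/
theorem coc_rot {N : ℕ} {R : Equiv.Perm ℝ} (h1 : ∀ x ∈ Ico (0 : ℝ) (1 / 2), R x = x + 1 / 2)
    (h2 : ∀ x ∈ Ico (1 / 2 : ℝ) 1, R x = x - 1 / 2) {q : ℝ} (hq : q ∈ Ico (0 : ℝ) 1) : coc N R q = 0 := by
  have hhalf : ∀ e : ℕ, 1 ≤ e → OnG e ((N : ℝ) * (1 / 2)) := fun e he =>
    OnG.nat_mul N (OnG.mono (N := 1) ⟨1, by norm_num⟩ he)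
  have hkey : ∀ c : ℝ, (c = 1 / 2 ∨ c = -(1 / 2)) → kap N (q + c) = kap N q := by
    intro c hc
    have hset : {e : ℕ | 1 ≤ e ∧ OnG e (N * (q + c))} = {e : ℕ | 1 ≤ e ∧ OnG e (N * q)} := by
      ext e
      simp only [Set.mem_ofPred_eq]
      refine and_congr_right fun he => ?_
      have h3 : OnG e ((N : ℝ) * c) := by
        rcases hc with rfl | rfl
        · exact hhalf e he
        · have := OnG.neg (hhalf e he)
          simpa using this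
      rw [mul_add, OnG.add_iff h3]
    rw [kap, hset, kap]
  rcases lt_or_ge q (1 / 2) with h | h
  · have hs : RGI R q 0 (1 / 2) := ⟨1 / 2 - q, by linarith, fun y hy => by
      rw [h1 y ⟨hq.1.trans hy.1, by linarith [hy.2]⟩, zpow_zero, one_mul]⟩
    rw [coc, hs.slope_eq, h1 q ⟨hq.1, h⟩, hkey _ (Or.inl rfl)]
    ring
  · have hs : RGI R q 0 (-(1 / 2)) := ⟨1 - q, by linarith [hq.2], fun y hy => by
      rw [h2 y ⟨h.trans hy.1, by linarith [hy.2]⟩, zpow_zero, one_mul]; ring⟩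
    rw [coc, hs.slope_eq, h2 q ⟨h, hq.2⟩, show q - 1 / 2 = q + -(1 / 2) by ring, hkey _ (Or.inr rfl)]
    ring

theorem dy_mul_iff {N : ℕ} {σ : Equiv.Perm ℝ} (hσ : UForm σ) (q : ℝ) : Dy (N * σ q) ↔ Dy (N * q) := by
  obtain ⟨k, c, hc, h⟩ := uform_rgi hσ q
  rw [h.self]
  have e : (N : ℝ) * ((2 : ℝ) ^ k * q + c) = (2 : ℝ) ^ k * (N * q) + N * c := by ring
  rw [e]
  exact Dy.affine_iff k ((Dy.of_nat N).mul hc)

end Pool.Agent.Thompson.C2
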