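import Mathlib

set_option autoImplicit false

/-!
# Part C2, abstract ping pong and cocycle argument
-/

namespace Pool.Agent.Thompson.C2

theorem ppai {α : Type*} (f : Equiv.Perm α) (x : α) : f (f⁻¹ x) = x := f.apply_symm_apply x

theorem ppia {α : Type*} (f : Equiv.Perm α) (x : α) : f⁻¹ (f x) = x := f.symm_apply_apply x

section PingPong

variable {α : Type*}

/-- reduced words ending in a power of `x` -/
inductive BB (x R : Equiv.Perm α) : Equiv.Perm α → Prop
  | pow (n : ℤ) : BB x R (x ^ n)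
  | step (n : ℤ) (k : Equiv.Perm α) : n ≠ 0 → BB x R k → BB x R (x ^ n * R * k)

/-- ping pong data -/
structure PP (x R : Equiv.Perm α) (I X1 X2 : Set α) : Prop where
  disj : ∀ z ∈ X1, z ∉ X2
  hR : ∀ z ∈ X1, R z ∈ X2
  hx : ∀ n : ℤ, n ≠ 0 → ∀ z ∈ X2, (x ^ n) z ∈ X1
  hI : ∀ z ∈ I, z ∈ X1
  hxI : ∀ n : ℤ, ∀ z ∈ I, (x ^ n) z ∈ I

theorem K_form {x R : Equiv.Perm α} (hR : R * R = 1) {k : Equiv.Perm α}
    (hk : k ∈ Subgroup.closure {x, R}) :
    (∃ n : ℤ, k = x ^ n) ∨ ∃ n : ℤ, ∃ k' : Equiv.Perm α, BB x R k' ∧ k = x ^ n * R * k' := by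
  have hRi : R⁻¹ = R := inv_eq_of_mul_eq_one_left hR
  have hBB : ∀ k' : Equiv.Perm α, BB x R k' → (∃ n : ℤ, k' = x ^ n) ∨
      ∃ n : ℤ, ∃ k'' : Equiv.Perm α, BB x R k'' ∧ k' = x ^ n * R * k'' := by
    intro k' h
    cases h with
    | pow n => exact Or.inl ⟨n, rfl⟩
    | step n k'' hn h => exact Or.inr ⟨n, k'', h, rfl⟩
  have hRstep : ∀ k : Equiv.Perm α, ((∃ n : ℤ, k = x ^ n) ∨
      ∃ n : ℤ, ∃ k' : Equiv.Perm α, BB x R k' ∧ k = x ^ n * R * k') →
      ((∃ n : ℤ, R * k = x ^ n) ∨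
      ∃ n : ℤ, ∃ k' : Equiv.Perm α, BB x R k' ∧ R * k = x ^ n * R * k') := by
    rintro k (⟨n, rfl⟩ | ⟨n, k', h, rfl⟩)
    · exact Or.inr ⟨0, x ^ n, BB.pow n, by simp⟩
    · by_cases hn : n = 0
      · subst hn
        have : R * (x ^ (0 : ℤ) * R * k') = k' := by
          rw [zpow_zero, one_mul, ← mul_assoc, hR, one_mul]
        rw [this]
        exact hBB k' h
      · exact Or.inr ⟨0, x ^ n * R * k', BB.step n k' hn h, by simp⟩
  have hxstep : ∀ m : ℤ, ∀ k : Equiv.Perm α, ((∃ n : ℤ, k = x ^ n) ∨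
      ∃ n : ℤ, ∃ k' : Equiv.Perm α, BB x R k' ∧ k = x ^ n * R * k') →
      ((∃ n : ℤ, x ^ m * k = x ^ n) ∨
      ∃ n : ℤ, ∃ k' : Equiv.Perm α, BB x R k' ∧ x ^ m * k = x ^ n * R * k') := by
    rintro m k (⟨n, rfl⟩ | ⟨n, k', h, rfl⟩)
    · exact Or.inl ⟨m + n, by rw [zpow_add]⟩
    · exact Or.inr ⟨m + n, k', h, by rw [zpow_add]; simp only [mul_assoc]⟩
  induction hk using Subgroup.closure_induction_left with
  | one => exact Or.inl ⟨0, by simp⟩
  | mul_left g hg k hk ih =>
    rcases hg with rfl | hg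
    · have := hxstep 1 k ih
      simpa using this
    · rw [Set.mem_singleton_iff] at hg
      subst hg
      exact hRstep k ih
  | inv_mul_cancel g hg k hk ih =>
    rcases hg with rfl | hg
    · have := hxstep (-1) k ih
      simpa using this
    · rw [Set.mem_singleton_iff] at hg
      subst hg
      rw [hRi]
      exact hRstep k ih

theorem BB_maps {x R : Equiv.Perm α} {I X1 X2 : Set α} (h : PP x R I X1 X2) {k : Equiv.Perm α}
    (hk : BB x R k) : ∀ z ∈ I, k z ∈ X1 := by
  induction hk with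
  | pow n => exact fun z hz => h.hI _ (h.hxI n z hz)
  | step n k hn hk ih =>
    intro z hz
    rw [Equiv.Perm.mul_apply, Equiv.Perm.mul_apply]
    exact h.hx n hn _ (h.hR _ (ih z hz))

theorem PP.main {x R : Equiv.Perm α} {I X1 X2 : Set α} (h : PP x R I X1 X2) (hR : R * R = 1)
    {k : Equiv.Perm α} (hk : k ∈ Subgroup.closure {x, R}) {z : α} (hz : z ∈ I) (hkz : k z ∈ I) :
    ∃ n : ℤ, k = x ^ n := by
  rcases K_form hR hk with h1 | ⟨n, k', hB, rfl⟩
  · exact h1
  · exfalso
    have h2 : (x ^ (-n)) ((x ^ n * R * k') z) = R (k' z) := by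
      rw [← Equiv.Perm.mul_apply, ← mul_assoc, ← mul_assoc, ← zpow_add]
      simp
    have h3 : R (k' z) ∈ I := by
      rw [← h2]
      exact h.hxI _ _ hkz
    exact h.disj _ (h.hI _ h3) (h.hR _ (BB_maps h hB z hz))

end PingPong

/-- The combinatorial data extracted from a hypothetical expression of the rotation as a commutator. -/
structure Data {α : Type*} (x y R : Equiv.Perm α) (I J X1 X2 Z1 Z2 : Set α) (p : α) : Prop where
  hR : R * R = 1
  rel : R * x * y = y * x
  ppI : PP x R I X1 X2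
  ppJ : PP (R * x) R J Z1 Z2
  JX1 : ∀ z ∈ J, z ∉ X1
  IJ : ∀ z ∈ I, z ∉ J
  yI : ∀ z, z ∉ I → y z ∈ J
  yJ : ∀ z, z ∉ J → y⁻¹ z ∈ I
  pI : p ∈ I
  xp : x p = p
  yp : y p ∈ J

section Main

variable {α : Type*} {x y R : Equiv.Perm α} {I J X1 X2 Z1 Z2 : Set α} {p : α}

/-- (D1) -/
theorem Data.disjK (h : Data x y R I J X1 X2 Z1 Z2 p) {k : Equiv.Perm α}
    (hk : k ∈ Subgroup.closure {x, R}) : ∀ z ∈ I, k z ∉ J := by
  have hpow : ∀ n : ℤ, ∀ z ∈ I, (x ^ n) z ∉ J := fun n z hz hJ => h.IJ _ (h.ppI.hxI n z hz) hJ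
  have hRi : ∀ z, R (R z) = z := fun z => by
    rw [← Equiv.Perm.mul_apply, h.hR]; rfl
  -- R J = x J
  have hRJ : ∀ z, R z ∈ J → x⁻¹ z ∈ J := by
    intro z hz
    have h1 := h.ppJ.hxI (-1) _ hz
    have h2 : ((R * x) ^ (-1 : ℤ)) (R z) = x⁻¹ z := by
      rw [zpow_neg_one, mul_inv_rev, inv_eq_of_mul_eq_one_left h.hR, Equiv.Perm.mul_apply, hRi]
    rwa [h2] at h1
  have hB : ∀ k' : Equiv.Perm α, BB x R k' → ∀ z ∈ I, R (k' z) ∉ J := by
    intro k' hk'
    induction hk' with
    | pow n =>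
      intro z hz hJ
      have h1 := hRJ _ hJ
      have h2 : x⁻¹ ((x ^ n) z) = (x ^ (-1 + n)) z := by
        rw [zpow_add, zpow_neg_one, Equiv.Perm.mul_apply]
      rw [h2] at h1
      exact hpow _ z hz h1
    | step n k'' hn hk'' ih =>
      intro z hz hJ
      have h1 := hRJ _ hJ
      have h2 : x⁻¹ ((x ^ n * R * k'') z) = (x ^ (-1 + n)) (R (k'' z)) := by
        rw [zpow_add, zpow_neg_one]
        rfl
      rw [h2] at h1
      by_cases hn1 : n = 1
      · subst hn1
        simp only [neg_add_cancel, zpow_zero, Equiv.Perm.one_apply] at h1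
        exact ih z hz h1
      · have h3 : -1 + n ≠ 0 := by omega
        exact h.JX1 _ h1 (h.ppI.hx _ h3 _ (h.ppI.hR _ (BB_maps h.ppI hk'' z hz)))
  intro z hz hJ
  rcases K_form h.hR hk with ⟨n, rfl⟩ | ⟨n, k', hk', rfl⟩
  · exact hpow n z hz hJ
  · by_cases hn : n = 0
    · subst hn
      simp only [zpow_zero, one_mul, Equiv.Perm.mul_apply] at hJ
      exact hB k' hk' z hz hJ
    · rw [Equiv.Perm.mul_apply, Equiv.Perm.mul_apply] at hJ
      exact h.JX1 _ hJ (h.ppI.hx _ hn _ (h.ppI.hR _ (BB_maps h.ppI hk' z hz)))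

theorem Data.disjK' (h : Data x y R I J X1 X2 Z1 Z2 p) {k : Equiv.Perm α}
    (hk : k ∈ Subgroup.closure {x, R}) : ∀ z ∈ J, k z ∉ I := by
  intro z hz hI
  have h1 := h.disjK (Subgroup.inv_mem _ hk) _ hI
  rw [ppia] at h1
  exact h1 hz

theorem Data.xmem : x ∈ Subgroup.closure ({x, R} : Set (Equiv.Perm α)) :=
  Subgroup.subset_closure (by simp)

theorem Data.Rmem : R ∈ Subgroup.closure ({x, R} : Set (Equiv.Perm α)) :=
  Subgroup.subset_closure (by simp)

theorem closure_eq (h : Data x y R I J X1 X2 Z1 Z2 p) :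
    Subgroup.closure ({x, R} : Set (Equiv.Perm α)) = Subgroup.closure {R * x, R} := by
  apply le_antisymm
  · rw [Subgroup.closure_le]
    rintro g (rfl | hg)
    · have h1 : g = R * (R * g) := by rw [← mul_assoc, h.hR, one_mul]
      rw [h1]
      exact Subgroup.mul_mem _ (Subgroup.subset_closure (by simp)) (Subgroup.subset_closure (by
        rw [← mul_assoc, h.hR, one_mul]; simp))
    · rw [Set.mem_singleton_iff] at hg
      subst hg
      exact Subgroup.subset_closure (by simp)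
  · rw [Subgroup.closure_le]
    rintro g (rfl | hg)
    · exact Subgroup.mul_mem _ Data.Rmem Data.xmem
    · rw [Set.mem_singleton_iff] at hg
      subst hg
      exact Data.Rmem

/-- `R_J` (`true`) and `R_I` (`false`) -/
inductive RR (x y R : Equiv.Perm α) (p : α) : Bool → α → Prop
  | base : RR x y R p true (y p)
  | jj (z : α) (k : Equiv.Perm α) : RR x y R p true z → k ∈ Subgroup.closure {x, R} →
      RR x y R p true (y (k z))
  | ji (z : α) (k : Equiv.Perm α) : RR x y R p true z → k ∈ Subgroup.closure {x, R} →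
      (∀ n : ℤ, k ≠ (R * x) ^ n) → RR x y R p false (y⁻¹ (k z))
  | ij (z : α) (k : Equiv.Perm α) : RR x y R p false z → k ∈ Subgroup.closure {x, R} →
      (∀ n : ℤ, k ≠ x ^ n) → RR x y R p true (y (k z))
  | ii (z : α) (k : Equiv.Perm α) : RR x y R p false z → k ∈ Subgroup.closure {x, R} →
      RR x y R p false (y⁻¹ (k z))

theorem Data.RR_sub (h : Data x y R I J X1 X2 Z1 Z2 p) {b : Bool} {z : α} (hz : RR x y R p b z) :
    (b = true → z ∈ J) ∧ (b = false → z ∈ I) := by
  induction hz with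
  | base => exact ⟨fun _ => h.yp, fun hb => by simp at hb⟩
  | jj z k hz hk ih => exact ⟨fun _ => h.yI _ (h.disjK' hk z (ih.1 rfl)), fun hb => by simp at hb⟩
  | ji z k hz hk hn ih =>
    refine ⟨fun hb => by simp at hb, fun _ => h.yJ _ fun hJ => ?_⟩
    rw [closure_eq h] at hk
    obtain ⟨n, hn'⟩ := h.ppJ.main h.hR hk (ih.1 rfl) hJ
    exact hn n hn'
  | ij z k hz hk hn ih =>
    refine ⟨fun _ => h.yI _ fun hI => ?_, fun hb => by simp at hb⟩
    obtain ⟨n, hn'⟩ := h.ppI.main h.hR hk (ih.2 rfl) hI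
    exact hn n hn'
  | ii z k hz hk ih => exact ⟨fun hb => by simp at hb, fun _ => h.yJ _ (h.disjK hk z (ih.2 rfl))⟩

/-- the invariant set `Z` -/
def ZZ (x y R : Equiv.Perm α) (p : α) : Set α :=
  {q | ∃ k ∈ Subgroup.closure ({x, R} : Set (Equiv.Perm α)), ∃ b z, RR x y R p b z ∧ q = k z}

theorem ZZ_inv {k : Equiv.Perm α} (hk : k ∈ Subgroup.closure ({x, R} : Set (Equiv.Perm α))) {q : α}
    (hq : q ∈ ZZ x y R p) : k q ∈ ZZ x y R p := by
  obtain ⟨k', hk', b, z, hz, rfl⟩ := hq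
  exact ⟨k * k', Subgroup.mul_mem _ hk hk', b, z, hz, rfl⟩

theorem RR_mem_ZZ {b : Bool} {z : α} (hz : RR x y R p b z) : z ∈ ZZ x y R p :=
  ⟨1, Subgroup.one_mem _, b, z, hz, rfl⟩

theorem Data.rel_zpow (h : Data x y R I J X1 X2 Z1 Z2 p) (n : ℤ) : (R * x) ^ n * y = y * x ^ n := by
  have h1 : R * x = y * x * y⁻¹ := by rw [← h.rel]; group
  rw [h1, conj_zpow]
  group

theorem Data.p_notMem (h : Data x y R I J X1 X2 Z1 Z2 p) : p ∉ ZZ x y R p := by
  rintro ⟨k, hk, b, z, hz, hpz⟩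
  cases b with
  | true => exact h.disjK' hk z ((h.RR_sub hz).1 rfl) (hpz ▸ h.pI)
  | false =>
    have hzI := (h.RR_sub hz).2 rfl
    obtain ⟨n, rfl⟩ := h.ppI.main h.hR hk hzI (hpz ▸ h.pI)
    have hzp : z = p := by
      have h1 : ∀ m : ℤ, (x ^ m) p = p := fun m => Equiv.Perm.zpow_apply_eq_self_of_apply_eq_self h.xp m
      have h2 : (x ^ (-n)) ((x ^ n) z) = z := by
        rw [← Equiv.Perm.mul_apply, ← zpow_add]; simp
      rw [← h2, ← hpz, h1]
    generalize hb : false = b at hz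
    cases hz with
    | base => simp at hb
    | jj z' k' hz' hk' => simp at hb
    | ij z' k' hz' hk' hn' => simp at hb
    | ji z' k' hz' hk' hn' =>
      have h3 : y p = k' z' := by rw [← hzp, ppai]
      have h4 : k' z' ∈ J := h3 ▸ h.yp
      rw [closure_eq h] at hk'
      obtain ⟨m, hm⟩ := h.ppJ.main h.hR hk' ((h.RR_sub hz').1 rfl) h4
      exact hn' m hm
    | ii z' k' hz' hk' =>
      have h3 : y p = k' z' := by rw [← hzp, ppai]
      exact h.disjK hk' z' ((h.RR_sub hz').2 rfl) (h3 ▸ h.yp)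

theorem Data.y_mem_iff (h : Data x y R I J X1 X2 Z1 Z2 p) (q : α) :
    y q ∈ ZZ x y R p ↔ q ∈ ZZ x y R p ∨ q = p := by
  have hxpow : ∀ n : ℤ, x ^ n ∈ Subgroup.closure ({x, R} : Set (Equiv.Perm α)) :=
    fun n => Subgroup.zpow_mem _ Data.xmem n
  have hRxpow : ∀ n : ℤ, (R * x) ^ n ∈ Subgroup.closure ({x, R} : Set (Equiv.Perm α)) :=
    fun n => Subgroup.zpow_mem _ (Subgroup.mul_mem _ Data.Rmem Data.xmem) n
  constructor
  · rintro ⟨k, hk, b, z, hz, hq⟩
    have hq' : q = y⁻¹ (k z) := by rw [← hq, ppia]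
    cases b with
    | false => exact Or.inl (hq' ▸ RR_mem_ZZ (RR.ii z k hz hk))
    | true =>
      by_cases hn : ∀ n : ℤ, k ≠ (R * x) ^ n
      · exact Or.inl (hq' ▸ RR_mem_ZZ (RR.ji z k hz hk hn))
      · push Not at hn
        obtain ⟨n, rfl⟩ := hn
        have h1 : ∀ w, ((R * x) ^ n) (y w) = y ((x ^ n) w) := fun w => by
          rw [← Equiv.Perm.mul_apply, h.rel_zpow, Equiv.Perm.mul_apply]
        generalize hb : true = b at hz
        cases hz with
        | base =>
          right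
          rw [hq', h1, ppia]
          exact Equiv.Perm.zpow_apply_eq_self_of_apply_eq_self h.xp n
        | jj z' k' hz' hk' =>
          left
          rw [hq', h1, ppia]
          exact ZZ_inv (hxpow n) (ZZ_inv hk' (RR_mem_ZZ hz'))
        | ij z' k' hz' hk' hn' =>
          left
          rw [hq', h1, ppia]
          exact ZZ_inv (hxpow n) (ZZ_inv hk' (RR_mem_ZZ hz'))
        | ji z' k' hz' hk' hn' => simp at hb
        | ii z' k' hz' hk' => simp at hb
  · rintro (⟨k, hk, b, z, hz, rfl⟩ | rfl)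
    · cases b with
      | true => exact RR_mem_ZZ (RR.jj z k hz hk)
      | false =>
        by_cases hn : ∀ n : ℤ, k ≠ x ^ n
        · exact RR_mem_ZZ (RR.ij z k hz hk hn)
        · push Not at hn
          obtain ⟨n, rfl⟩ := hn
          have h1 : ∀ w, y ((x ^ n) w) = ((R * x) ^ n) (y w) := fun w => by
            rw [← Equiv.Perm.mul_apply, ← h.rel_zpow, Equiv.Perm.mul_apply]
          generalize hb : false = b at hz
          cases hz with
          | base => simp at hb
          | jj z' k' hz' hk' => simp at hb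
          | ij z' k' hz' hk' hn' => simp at hb
          | ji z' k' hz' hk' hn' =>
            rw [h1, ppai]
            exact ZZ_inv (hRxpow n) (ZZ_inv hk' (RR_mem_ZZ hz'))
          | ii z' k' hz' hk' =>
            rw [h1, ppai]
            exact ZZ_inv (hRxpow n) (ZZ_inv hk' (RR_mem_ZZ hz'))
    · exact RR_mem_ZZ RR.base

/-- elements of `ZZ` stay in any invariant set containing `p` -/
theorem ZZ_sub {O : Set α} (hp : p ∈ O) (hx : ∀ q ∈ O, x q ∈ O) (hx' : ∀ q ∈ O, x⁻¹ q ∈ O)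
    (hR : ∀ q ∈ O, R q ∈ O) (hR' : ∀ q ∈ O, R⁻¹ q ∈ O)
    (hy : ∀ q ∈ O, y q ∈ O) (hy' : ∀ q ∈ O, y⁻¹ q ∈ O) :
    ∀ q ∈ ZZ x y R p, q ∈ O := by
  have hK : ∀ k ∈ Subgroup.closure ({x, R} : Set (Equiv.Perm α)), ∀ q ∈ O, k q ∈ O := by
    intro k hk
    induction hk using Subgroup.closure_induction_left with
    | one => exact fun q hq => hq
    | mul_left g hg k hk ih =>
      intro q hq
      rcases hg with rfl | hg
      · exact hx _ (ih q hq)
      · rw [Set.mem_singleton_iff] at hg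
        subst hg
        exact hR _ (ih q hq)
    | inv_mul_cancel g hg k hk ih =>
      intro q hq
      rcases hg with rfl | hg
      · exact hx' _ (ih q hq)
      · rw [Set.mem_singleton_iff] at hg
        subst hg
        exact hR' _ (ih q hq)
  have hRR : ∀ b z, RR x y R p b z → z ∈ O := by
    intro b z hz
    induction hz with
    | base => exact hy _ hp
    | jj z k hz hk ih => exact hy _ (hK k hk _ ih)
    | ji z k hz hk hn ih => exact hy' _ (hK k hk _ ih)
    | ij z k hz hk hn ih => exact hy _ (hK k hk _ ih)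
    | ii z k hz hk ih => exact hy' _ (hK k hk _ ih)
  rintro q ⟨k, hk, b, z, hz, rfl⟩
  exact hK k hk _ (hRR b z hz)

open Classical in
/-- The cocycle argument. -/
theorem Data.contra (h : Data x y R I J X1 X2 Z1 Z2 p) {O : Set α}
    (hp : p ∈ O) (hx : ∀ q ∈ O, x q ∈ O) (hx' : ∀ q ∈ O, x⁻¹ q ∈ O)
    (hR : ∀ q ∈ O, R q ∈ O)
    (hy : ∀ q ∈ O, y q ∈ O) (hy' : ∀ q ∈ O, y⁻¹ q ∈ O)
    (ex ey : α → ℤ) (hfx : (O ∩ Function.support ex).Finite) (hfy : (O ∩ Function.support ey).Finite)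
    (hc : ∀ q, ex (y q) + ey q = ey (x q) + ex q) : ex p = 0 := by
  have hRi : R⁻¹ = R := inv_eq_of_mul_eq_one_left h.hR
  have hZO := ZZ_sub (x := x) (y := y) (R := R) hp hx hx' hR (by rw [hRi]; exact hR) hy hy'
  set Z := ZZ x y R p with hZ
  have hRx : ∀ q, q ∈ Z → (R * x) q ∈ Z := fun q hq =>
    ZZ_inv (Subgroup.mul_mem _ Data.Rmem Data.xmem) hq
  have hRx' : ∀ q, (R * x) q ∈ Z → q ∈ Z := fun q hq => by
    have h1 := ZZ_inv (Subgroup.inv_mem _ (Subgroup.mul_mem _ Data.Rmem Data.xmem)) hq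
    rwa [ppia] at h1
  -- W = y⁻¹ Z
  have hW : ∀ q, y q ∈ Z ↔ q ∈ Z ∨ q = p := h.y_mem_iff
  have hWx : ∀ q, y (x q) ∈ Z ↔ y q ∈ Z := by
    intro q
    have h1 : y (x q) = (R * x) (y q) := by
      rw [← Equiv.Perm.mul_apply, ← h.rel]; rfl
    rw [h1]
    exact ⟨hRx' _, hRx _⟩
  have hWO : ∀ q, y q ∈ Z → q ∈ O := by
    intro q hq
    rcases (hW q).1 hq with h1 | h1
    · exact hZO q h1
    · exact h1 ▸ hp
  set A : α → ℤ := fun q => if y q ∈ Z then ex (y q) else 0 with hA
  set B : α → ℤ := fun q => if y q ∈ Z then ey q else 0 with hB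
  set C : α → ℤ := fun q => if y q ∈ Z then ey (x q) else 0 with hC
  set D : α → ℤ := fun q => if y q ∈ Z then ex q else 0 with hD
  set E : α → ℤ := fun q => if q ∈ Z then ex q else 0 with hE
  have hABCD : ∀ q, A q + B q = C q + D q := by
    intro q
    simp only [hA, hB, hC, hD]
    split_ifs
    · exact hc q
    · rfl
  have fE : (Function.support E).Finite := by
    refine hfx.subset fun q hq => ?_
    simp only [hE, Function.mem_support, ne_eq, ite_eq_right_iff, Classical.not_imp] at hq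
    exact ⟨hZO q hq.1, hq.2⟩
  have fD : (Function.support D).Finite := by
    refine hfx.subset fun q hq => ?_
    simp only [hD, Function.mem_support, ne_eq, ite_eq_right_iff, Classical.not_imp] at hq
    exact ⟨hWO q hq.1, hq.2⟩
  have fB : (Function.support B).Finite := by
    refine hfy.subset fun q hq => ?_
    simp only [hB, Function.mem_support, ne_eq, ite_eq_right_iff, Classical.not_imp] at hq
    exact ⟨hWO q hq.1, hq.2⟩
  have hAE : A = E ∘ y := rfl
  have hCB : C = B ∘ x := by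
    funext q
    simp only [hC, hB, Function.comp_apply]
    by_cases h1 : y q ∈ Z
    · rw [if_pos h1, if_pos ((hWx q).2 h1)]
    · rw [if_neg h1, if_neg (fun h2 => h1 ((hWx q).1 h2))]
  have fA : (Function.support A).Finite := by
    rw [hAE, Function.support_comp_eq_preimage]
    exact fE.preimage y.injective.injOn
  have fC : (Function.support C).Finite := by
    rw [hCB, Function.support_comp_eq_preimage]
    exact fB.preimage x.injective.injOn
  have s1 : ∑ᶠ q, A q + ∑ᶠ q, B q = ∑ᶠ q, C q + ∑ᶠ q, D q := by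
    rw [← finsum_add_distrib fA fB, ← finsum_add_distrib fC fD]
    exact finsum_congr hABCD
  have s2 : ∑ᶠ q, A q = ∑ᶠ q, E q := by
    rw [hAE]; exact finsum_comp_equiv y
  have s3 : ∑ᶠ q, C q = ∑ᶠ q, B q := by
    rw [hCB]; exact finsum_comp_equiv x
  have s4 : ∑ᶠ q, D q = ∑ᶠ q, E q + ex p := by
    set P : α → ℤ := fun q => if q = p then ex p else 0 with hP
    have fP : (Function.support P).Finite := by
      refine (Set.finite_singleton p).subset fun q hq => ?_
      simp only [hP, Function.mem_support, ne_eq, ite_eq_right_iff, Classical.not_imp] at hq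
      exact hq.1
    have s5 : ∑ᶠ q, P q = ex p := by
      have := finsum_eq_single P p (fun q hq => by simp [hP, hq])
      rw [this]; simp [hP]
    have s6 : ∀ q, D q = E q + P q := by
      intro q
      simp only [hD, hE, hP]
      by_cases h1 : q = p
      · subst h1
        have h2 : q ∉ Z := h.p_notMem
        have h3 : y q ∈ Z := (hW q).2 (Or.inr rfl)
        rw [if_pos h3, if_neg h2, if_pos rfl, zero_add]
      · rw [if_neg h1, add_zero]
        by_cases h2 : q ∈ Z
        · rw [if_pos h2, if_pos ((hW q).2 (Or.inl h2))]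
        · have h3 : y q ∉ Z := fun h3 => by
            rcases (hW q).1 h3 with h4 | h4
            · exact h2 h4
            · exact h1 h4
          rw [if_neg h2, if_neg h3]
    rw [finsum_congr s6, finsum_add_distrib fE fP, s5]
  rw [s2, s3, s4] at s1
  omega

end Main

end Pool.Agent.Thompson.C2
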