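import Pool.Agent.Thompson.Base
import Pool.Agent.Thompson.C2.Real

set_option autoImplicit false

/-!
# Part C2, lifts of elements of T to the line
-/

namespace Pool.Agent.Thompson.C2

open Set

/-- `a` is a lift of `x` -/
structure IsLift (x : Equiv.Perm ℝ) (a : ℝ ≃o ℝ) : Prop where
  comm : ∀ t, a (t + 1) = a t + 1
  lift : ∀ t, x (Int.fract t) = Int.fract (a t)

theorem IsLift.one : IsLift 1 (OrderIso.refl ℝ) := ⟨fun _ => rfl, fun _ => rfl⟩

theorem IsLift.mul {x y : Equiv.Perm ℝ} {a b : ℝ ≃o ℝ} (hx : IsLift x a) (hy : IsLift y b) :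
    IsLift (x * y) (b.trans a) where
  comm t := by
    rw [OrderIso.trans_apply, OrderIso.trans_apply, hy.comm, hx.comm]
  lift t := by
    rw [Equiv.Perm.mul_apply, hy.lift, hx.lift, OrderIso.trans_apply]

theorem IsLift.inv {x : Equiv.Perm ℝ} {a : ℝ ≃o ℝ} (hx : IsLift x a) : IsLift x⁻¹ a.symm where
  comm t := by
    apply a.injective
    rw [hx.comm, a.apply_symm_apply, a.apply_symm_apply]
  lift t := by
    apply pinv_eq
    rw [hx.lift, a.apply_symm_apply]

theorem IsLift.shift {x : Equiv.Perm ℝ} {a : ℝ ≃o ℝ} (hx : IsLift x a) (j : ℤ) : IsLift x (shf a j) where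
  comm := shf_comm a hx.comm j
  lift t := by rw [shf_apply, Int.fract_sub_intCast, hx.lift]

theorem exists_lift_gen {σ : Equiv.Perm ℝ} (hσ : σ ∈ Tset) : ∃ a, IsLift σ a := by
  obtain ⟨hV, t0, ht0, c1, c2, m1, m2, hz⟩ := hσ
  have hU := mem_VV_iff.1 hV
  have hI : ∀ {x : ℝ}, σ x ∈ Ico (0 : ℝ) 1 ↔ x ∈ Ico (0 : ℝ) 1 := fun {x} => perm_mem_Ico hU.1
  -- the lift on [0,1)
  set g : ℝ → ℝ := fun s => if s < t0 then σ s - 1 else σ s with hg
  have g1 : ∀ s, s < t0 → g s = σ s - 1 := fun s hs => if_pos hs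
  have g2 : ∀ s, t0 ≤ s → g s = σ s := fun s hs => if_neg (not_lt.2 hs)
  have hmono : ∀ s ∈ Ico (0 : ℝ) 1, ∀ s' ∈ Ico (0 : ℝ) 1, s < s' → g s < g s' := by
    intro s hs s' hs' hss
    rcases lt_or_ge s' t0 with h | h
    · rw [g1 s (hss.trans h), g1 s' h]
      have := m1 ⟨hs.1, hss.trans h⟩ ⟨hs'.1, h⟩ hss
      linarith
    · rcases lt_or_ge s t0 with h' | h'
      · rw [g1 s h', g2 s' h]
        have e1 := (hI.2 hs).2
        have e2 := (hI.2 hs').1
        linarith
      · rw [g2 s h', g2 s' h]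
        exact m2 ⟨h', hs.2⟩ ⟨h, hs'.2⟩ hss
  have hlt0 : ∀ s ∈ Ico (0 : ℝ) 1, g s < g 0 + 1 := by
    intro s hs
    rcases eq_or_lt_of_le ht0.1 with h0 | h0
    · rw [g2 0 h0.ge, g2 s (by rw [← h0]; exact hs.1)]
      have e1 := (hI.2 hs).2
      have e2 := (hI.2 (show (0 : ℝ) ∈ Ico (0 : ℝ) 1 from ⟨le_rfl, one_pos⟩)).1
      linarith
    · rw [g1 0 h0]
      have e2 := (hI.2 (show (0 : ℝ) ∈ Ico (0 : ℝ) 1 from ⟨le_rfl, one_pos⟩)).1
      rcases lt_or_ge s t0 with h | h
      · rw [g1 s h]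
        have e1 := (hI.2 hs).2
        linarith
      · rw [g2 s h]
        by_contra hcon
        push Not at hcon
        have hcon' : σ 0 ≤ σ s := by linarith
        have hc : ContinuousOn σ (Icc t0 s) := c2.mono fun u hu => ⟨hu.1, hu.2.trans_lt hs.2⟩
        have hmem : σ 0 ∈ Icc (σ t0) (σ s) := ⟨by rw [hz]; exact e2, hcon'⟩
        obtain ⟨u, hu, hu'⟩ := intermediate_value_Icc h hc hmem
        have h3 := σ.injective hu'
        rw [h3] at hu
        linarith [hu.1]
  have hge0 : ∀ s ∈ Ico (0 : ℝ) 1, g 0 ≤ g s := by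
    intro s hs
    rcases eq_or_lt_of_le hs.1 with h | h
    · rw [← h]
    · exact (hmono 0 ⟨le_rfl, one_pos⟩ s hs h).le
  have hwrap : ∀ s ∈ Ico (0 : ℝ) 1, ∀ s' ∈ Ico (0 : ℝ) 1, g s < g s' + 1 := fun s hs s' hs' => by
    have e1 := hlt0 s hs
    have e2 := hge0 s' hs'
    linarith
  have hfr : ∀ t : ℝ, Int.fract t ∈ Ico (0 : ℝ) 1 := fun t => ⟨Int.fract_nonneg t, Int.fract_lt_one t⟩
  set G : ℝ → ℝ := fun t => g (Int.fract t) + ⌊t⌋ with hG
  have hGm : StrictMono G := by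
    intro t t' htt
    simp only [hG]
    rcases lt_trichotomy ⌊t⌋ ⌊t'⌋ with h | h | h
    · have h1 : (⌊t⌋ : ℝ) + 1 ≤ ⌊t'⌋ := by exact_mod_cast h
      have h2 := hwrap _ (hfr t) _ (hfr t')
      linarith
    · have h1 : Int.fract t < Int.fract t' := by
        have e1 := Int.floor_add_fract t
        have e2 := Int.floor_add_fract t'
        rw [h] at e1
        linarith
      have h2 := hmono _ (hfr t) _ (hfr t') h1
      rw [h]
      linarith
    · exact absurd (Int.floor_mono htt.le) (not_le.2 h)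
  have hGs : Function.Surjective G := by
    intro r
    obtain ⟨s, hs⟩ := σ.surjective (Int.fract r)
    have hs1 : s ∈ Ico (0 : ℝ) 1 := by
      rw [← hI, hs]; exact hfr r
    have hfs : Int.fract s = s := Int.fract_eq_self.2 ⟨hs1.1, hs1.2⟩
    have hfl : ⌊s⌋ = 0 := Int.floor_eq_zero_iff.2 hs1
    rcases lt_or_ge s t0 with h | h
    · refine ⟨s + ((⌊r⌋ + 1 : ℤ) : ℝ), ?_⟩
      simp only [hG]
      rw [Int.fract_add_intCast, Int.floor_add_intCast, hfs, hfl, g1 s h, hs]
      push_cast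
      have := Int.floor_add_fract r
      linarith
    · refine ⟨s + ((⌊r⌋ : ℤ) : ℝ), ?_⟩
      simp only [hG]
      rw [Int.fract_add_intCast, Int.floor_add_intCast, hfs, hfl, g2 s h, hs]
      push_cast
      have := Int.floor_add_fract r
      linarith
  refine ⟨StrictMono.orderIsoOfSurjective G hGm hGs, ?_, ?_⟩
  · intro t
    change G (t + 1) = G t + 1
    simp only [hG]
    rw [Int.fract_add_one, Int.floor_add_one]
    push_cast
    ring
  · intro t
    change σ (Int.fract t) = Int.fract (G t)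
    simp only [hG]
    rw [Int.fract_add_intCast]
    have h1 := hI.2 (hfr t)
    have h2 : Int.fract (σ (Int.fract t)) = σ (Int.fract t) := Int.fract_eq_self.2 ⟨h1.1, h1.2⟩
    rcases lt_or_ge (Int.fract t) t0 with h | h
    · rw [g1 _ h, Int.fract_sub_one, h2]
    · rw [g2 _ h, h2]

theorem exists_lift {x : Equiv.Perm ℝ} (hx : x ∈ TT) : ∃ a, IsLift x a := by
  induction hx using Subgroup.closure_induction with
  | mem x hx => exact exists_lift_gen hx
  | one => exact ⟨_, IsLift.one⟩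
  | mul x y _ _ hx hy =>
    obtain ⟨a, ha⟩ := hx
    obtain ⟨b, hb⟩ := hy
    exact ⟨_, ha.mul hb⟩
  | inv x _ hx =>
    obtain ⟨a, ha⟩ := hx
    exact ⟨_, ha.inv⟩

theorem TT_le_VV {x : Equiv.Perm ℝ} (hx : x ∈ TT) : x ∈ VV := by
  have : TT ≤ VV := by
    rw [TT, Subgroup.closure_le]
    exact fun σ hσ => hσ.1
  exact this hx

/-- a lift of the rotation by 1/2 is a translation -/
theorem lift_rot {R : Equiv.Perm ℝ} (h1 : ∀ x ∈ Ico (0 : ℝ) (1 / 2), R x = x + 1 / 2)
    (h2 : ∀ x ∈ Ico (1 / 2 : ℝ) 1, R x = x - 1 / 2) {d : ℝ ≃o ℝ} (hd : IsLift R d) :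
    ∃ n : ℤ, ∀ t, d t = t + 1 / 2 + n := by
  have hR : ∀ t, ∃ n : ℤ, d t = t + 1 / 2 + n := by
    intro t
    have h3 := hd.lift t
    have e1 := Int.floor_add_fract t
    have e2 := Int.floor_add_fract (d t)
    rcases lt_or_ge (Int.fract t) (1 / 2) with h | h
    · rw [h1 _ ⟨Int.fract_nonneg t, h⟩] at h3
      exact ⟨⌊d t⌋ - ⌊t⌋, by push_cast; linarith⟩
    · rw [h2 _ ⟨h, Int.fract_lt_one t⟩] at h3
      exact ⟨⌊d t⌋ - ⌊t⌋ - 1, by push_cast; linarith⟩
  choose n hn using hR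
  have hper : ∀ t, n (t + 1) = n t := by
    intro t
    have e1 := hn (t + 1)
    rw [hd.comm, hn t] at e1
    have : (n t : ℝ) = n (t + 1) := by linarith
    exact_mod_cast this.symm
  have hclose : ∀ s t, s < t → t < s + 1 → n s = n t := by
    intro s t hst hts
    have e1 := d.strictMono hst
    have e2 := d.strictMono hts
    rw [hd.comm] at e2
    rw [hn s, hn t] at e1
    rw [hn s, hn t] at e2
    have h3 : (n t : ℝ) < n s + 1 := by linarith
    have h4 : (n s : ℝ) < n t + 1 := by linarith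
    have h5 : n t < n s + 1 := by exact_mod_cast h3
    have h6 : n s < n t + 1 := by exact_mod_cast h4
    omega
  have hint : ∀ (m : ℤ) t, n (t + m) = n t := by
    intro m t
    induction m using Int.induction_on with
    | zero => simp
    | succ m ih =>
      have e : t + (((m : ℤ) + 1 : ℤ) : ℝ) = (t + (m : ℤ)) + 1 := by push_cast; ring
      rw [e, hper, ih]
    | pred m ih =>
      have e : t + ((-(m : ℤ) : ℤ) : ℝ) = t + ((-(m : ℤ) - 1 : ℤ) : ℝ) + 1 := by push_cast; ring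
      rw [← ih, e, hper]
  refine ⟨n 0, fun t => ?_⟩
  rw [hn t]
  have h4 : n t = n (Int.fract t) := by
    have e1 := Int.floor_add_fract t
    have e2 : t = Int.fract t + (⌊t⌋ : ℤ) := by linarith
    conv_lhs => rw [e2]
    exact hint _ _
  have h5 : n (Int.fract t) = n 0 := by
    rcases eq_or_lt_of_le (Int.fract_nonneg t) with h | h
    · rw [← h]
    · exact (hclose 0 (Int.fract t) h (by rw [zero_add]; exact Int.fract_lt_one t)).symm
  rw [h4, h5]

end Pool.Agent.Thompson.C2
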